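import Mathlib

set_option autoImplicit false

/-!
# Abundancy along record setters of the scaled surplus

The record setters `b_j` of `g (n) = (H (n) - 2) √n` among the odd non-deficient numbers have
unbounded `H (b_j)`, and `h (n) ≥ H (n) / 2`; so the abundancy `h (b_j)` is unbounded and cannot be
eventually non-increasing.
-/

namespace Pool.Agent.Results.MP_04e67f_nt.InfinitelyManyIncreases

open Finset

/-- The abundancy `σ (n) / n`. -/
noncomputable def h (n : ℕ) : ℝ := (∑ d ∈ n.divisors, (d : ℝ)) / n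

/-- `H (n) = ∏_{p ∣ n} p / (p - 1)`. -/
noncomputable def H (n : ℕ) : ℝ := ∏ p ∈ n.primeFactors, (p : ℝ) / ((p : ℝ) - 1)

/-- `S (n) = H (n) - 2`. -/
noncomputable def S (n : ℕ) : ℝ := H n - 2

/-- `g (n) = S (n) n ^ (1/2)`. -/
noncomputable def g (n : ℕ) : ℝ := S n * Real.sqrt n

/-- `n` is odd and non-deficient: `σ (n) ≥ 2 n`. -/
def OddNonDeficient (n : ℕ) : Prop := Odd n ∧ 2 * n ≤ ∑ d ∈ n.divisors, d

/-- `B₁`: the odd non-deficient record setters for `g`. -/
def B : Set ℕ := {n | OddNonDeficient n ∧ ∀ k : ℕ, k < n → OddNonDeficient k → g k < g n}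

/-- The increasing enumeration `b_{1,1} < b_{1,2} < …` of `B₁`. -/
noncomputable def b (j : ℕ) : ℕ := Nat.nth (fun n => n ∈ B) (j - 1)

theorem prod_sq_ge (N : ℕ) (hN : 2 ≤ N) :
    ∏ k ∈ Icc 2 N, ((1 : ℝ) - 1 / (k : ℝ) ^ 2) = ((N : ℝ) + 1) / (2 * (N : ℝ)) := by
  induction N, hN using Nat.le_induction with
  | base => norm_num
  | succ N hN ih =>
    rw [prod_Icc_succ_top (by omega), ih]
    have hN0 : (0 : ℝ) < N := by exact_mod_cast (by omega : 0 < N)
    push_cast
    field_simp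
    ring

theorem one_add_sum_le (F : Finset ℕ) (f : ℕ → ℝ) (hf : ∀ p ∈ F, 0 ≤ f p) :
    1 + ∑ p ∈ F, f p ≤ ∏ p ∈ F, (1 + f p) := by
  classical
  induction F using Finset.induction_on with
  | empty => simp
  | insert q F hq ih =>
    rw [sum_insert hq, prod_insert hq]
    have h1 := ih (fun p hp => hf p (mem_insert_of_mem hp))
    have h2 := hf q (mem_insert_self q F)
    have h3 : 0 ≤ ∑ p ∈ F, f p := sum_nonneg (fun p hp => hf p (mem_insert_of_mem hp))
    nlinarith

theorem odd_prod (F : Finset ℕ) (hF : ∀ p ∈ F, Odd p) : Odd (∏ p ∈ F, p) := by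
  classical
  induction F using Finset.induction_on with
  | empty => simp
  | insert q F hq ih =>
    rw [prod_insert hq]
    exact (hF q (mem_insert_self q F)).mul (ih (fun p hp => hF p (mem_insert_of_mem hp)))

theorem prod_primes_ge (F : Finset ℕ) (hF : ∀ p ∈ F, 2 ≤ p) :
    (1 : ℝ) / 2 ≤ ∏ p ∈ F, ((1 : ℝ) - 1 / (p : ℝ) ^ 2) := by
  classical
  set N := F.sup id + 2 with hN
  have hsub : F ⊆ Icc 2 N := by
    intro p hp
    have : p ≤ F.sup id := Finset.le_sup (f := id) hp
    exact mem_Icc.2 ⟨hF p hp, by omega⟩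
  have hle : ∀ k ∈ Icc 2 N, (0 : ℝ) < 1 - 1 / (k : ℝ) ^ 2 ∧ 1 - 1 / (k : ℝ) ^ 2 ≤ 1 := by
    intro k hk
    have hk2 : (2 : ℝ) ≤ k := by exact_mod_cast (mem_Icc.1 hk).1
    constructor
    · rw [sub_pos, div_lt_one (by positivity)]
      nlinarith
    · have : (0 : ℝ) ≤ 1 / (k : ℝ) ^ 2 := by positivity
      linarith
  calc (1 : ℝ) / 2 ≤ ((N : ℝ) + 1) / (2 * N) := by
        have hN0 : (0 : ℝ) < N := by exact_mod_cast (by omega : 0 < N)
        rw [div_le_div_iff₀ (by norm_num) (by positivity)]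
        linarith
    _ = ∏ k ∈ Icc 2 N, (1 - 1 / (k : ℝ) ^ 2) := (prod_sq_ge N (by omega)).symm
    _ = (∏ k ∈ Icc 2 N \ F, (1 - 1 / (k : ℝ) ^ 2)) * ∏ p ∈ F, (1 - 1 / (p : ℝ) ^ 2) :=
        (prod_sdiff hsub).symm
    _ ≤ 1 * ∏ p ∈ F, (1 - 1 / (p : ℝ) ^ 2) := by
        apply mul_le_mul_of_nonneg_right
        · apply prod_le_one
          · intro k hk; exact (hle k (mem_sdiff.1 hk).1).1.le
          · intro k hk; exact (hle k (mem_sdiff.1 hk).1).2
        · exact prod_nonneg (fun p hp => (hle p (hsub hp)).1.le)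
    _ = _ := one_mul _

/-- `σ (n) / n ≥ ∏_{p ∣ n} (1 + 1 / p)` -/
theorem h_ge_prod (n : ℕ) (hn : 0 < n) : ∏ p ∈ n.primeFactors, (1 + 1 / (p : ℝ)) ≤ h n := by
  classical
  have hn0 : (0 : ℝ) < n := by exact_mod_cast hn
  rw [prod_one_add]
  unfold h
  rw [le_div_iff₀ hn0, sum_mul]
  have hdvd : ∀ T ∈ n.primeFactors.powerset, ∏ p ∈ T, p ∣ n := by
    intro T hT
    rw [mem_powerset] at hT
    exact (prod_dvd_prod_of_subset _ _ _ hT).trans (Nat.prod_primeFactors_dvd n)
  have hprime : ∀ T ∈ n.primeFactors.powerset, ∀ p ∈ T, Nat.Prime p := fun T hT p hp =>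
    Nat.prime_of_mem_primeFactors (mem_powerset.1 hT hp)
  have hinj : Set.InjOn (fun T : Finset ℕ => n / ∏ p ∈ T, p) (n.primeFactors.powerset : Set _) := by
    intro T hT T' hT' heq
    have h1 := hdvd T hT
    have h2 := hdvd T' hT'
    have h3 : ∏ p ∈ T, p = ∏ p ∈ T', p := by
      simp only at heq
      obtain ⟨c, hc⟩ := h1
      obtain ⟨c', hc'⟩ := h2
      have hp1 : 0 < ∏ p ∈ T, p := prod_pos (fun p hp => (hprime T hT p hp).pos)
      have hp2 : 0 < ∏ p ∈ T', p := prod_pos (fun p hp => (hprime T' hT' p hp).pos)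
      have e1 : n / ∏ p ∈ T, p = c := by
        conv_lhs => rw [hc]
        exact Nat.mul_div_cancel_left c hp1
      have e2 : n / ∏ p ∈ T', p = c' := by
        conv_lhs => rw [hc']
        exact Nat.mul_div_cancel_left c' hp2
      rw [e1, e2] at heq
      subst heq
      have hc0 : 0 < c := by
        rcases Nat.eq_zero_or_pos c with h | h
        · rw [h, mul_zero] at hc; omega
        · exact h
      exact Nat.eq_of_mul_eq_mul_right hc0 (hc.symm.trans hc')
    have h4 : (∏ p ∈ T, p).primeFactors = T := Nat.primeFactors_prod (hprime T hT)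
    have h5 : (∏ p ∈ T', p).primeFactors = T' := Nat.primeFactors_prod (hprime T' hT')
    rw [← h4, ← h5, h3]
  calc ∑ T ∈ n.primeFactors.powerset, (∏ p ∈ T, 1 / (p : ℝ)) * n
      = ∑ T ∈ n.primeFactors.powerset, ((n / ∏ p ∈ T, p : ℕ) : ℝ) := by
        apply sum_congr rfl
        intro T hT
        have hp1 : (∏ p ∈ T, (p : ℝ)) ≠ 0 := by
          apply prod_ne_zero_iff.2
          intro p hp
          exact_mod_cast (hprime T hT p hp).ne_zero
        rw [Nat.cast_div (hdvd T hT) (by push_cast; exact hp1)]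
        push_cast
        rw [prod_div_distrib, prod_const_one]
        field_simp
    _ = ∑ d ∈ n.primeFactors.powerset.image (fun T => n / ∏ p ∈ T, p), (d : ℝ) :=
        (sum_image hinj).symm
    _ ≤ ∑ d ∈ n.divisors, (d : ℝ) := by
        apply sum_le_sum_of_subset_of_nonneg
        · intro d hd
          rw [mem_image] at hd
          obtain ⟨T, hT, rfl⟩ := hd
          exact Nat.mem_divisors.2 ⟨Nat.div_dvd_of_dvd (hdvd T hT), hn.ne'⟩
        · intro d _ _; positivity

theorem h_ge (n : ℕ) (hn : 0 < n) : H n / 2 ≤ h n := by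
  refine le_trans ?_ (h_ge_prod n hn)
  have h2 : ∀ p ∈ n.primeFactors, 2 ≤ p := fun p hp => (Nat.prime_of_mem_primeFactors hp).two_le
  have e : ∏ p ∈ n.primeFactors, (1 + 1 / (p : ℝ)) =
      (∏ p ∈ n.primeFactors, (1 - 1 / (p : ℝ) ^ 2)) * H n := by
    unfold H
    rw [← prod_mul_distrib]
    apply prod_congr rfl
    intro p hp
    have hp2 : (2 : ℝ) ≤ p := by exact_mod_cast h2 p hp
    have h1 : (p : ℝ) - 1 ≠ 0 := by linarith
    have h3 : (p : ℝ) ≠ 0 := by linarith
    field_simp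
    ring
  rw [e]
  have hH : 0 ≤ H n := by
    unfold H
    apply prod_nonneg
    intro p hp
    have hp2 : (2 : ℝ) ≤ p := by exact_mod_cast h2 p hp
    apply div_nonneg <;> linarith
  have := prod_primes_ge n.primeFactors h2
  nlinarith

theorem nonDef_of_h {n : ℕ} (ho : Odd n) (hh : 2 ≤ h n) : OddNonDeficient n := by
  refine ⟨ho, ?_⟩
  have hn : (0 : ℝ) < n := by exact_mod_cast ho.pos
  unfold h at hh
  rw [le_div_iff₀ hn] at hh
  have h2 : ((2 * n : ℕ) : ℝ) ≤ ((∑ d ∈ n.divisors, d : ℕ) : ℝ) := by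
    push_cast
    exact hh
  exact_mod_cast h2

/-- odd non-deficient numbers with large `H` -/
theorem exists_large (C : ℝ) : ∃ n : ℕ, OddNonDeficient n ∧ C < H n := by
  classical
  obtain ⟨P, hP⟩ : ∃ P : Finset Nat.Primes, max C 4 + 1 ≤ ∑ p ∈ P, (1 : ℝ) / (p : ℕ) := by
    by_contra hcon
    push Not at hcon
    apply Nat.Primes.not_summable_one_div
    exact summable_of_sum_le (fun p => by positivity) (fun P => (hcon P).le)
  set F : Finset ℕ := (P.image (fun p : Nat.Primes => (p : ℕ))).erase 2 with hF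
  have hFp : ∀ p ∈ F, Nat.Prime p := by
    intro p hp
    rw [hF, mem_erase, mem_image] at hp
    obtain ⟨_, q, _, rfl⟩ := hp
    exact q.2
  set n := ∏ p ∈ F, p with hn
  have hpf : n.primeFactors = F := Nat.primeFactors_prod hFp
  have ho : Odd n := by
    rw [hn]
    apply odd_prod
    intro p hp
    have h1 := hFp p hp
    rw [hF, mem_erase] at hp
    exact h1.odd_of_ne_two hp.1
  have hsum : max C 4 < ∑ p ∈ F, (1 : ℝ) / (p : ℝ) := by
    have e1 : ∑ p ∈ P, (1 : ℝ) / (p : ℕ) =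
        ∑ q ∈ P.image (fun p : Nat.Primes => (p : ℕ)), (1 : ℝ) / (q : ℝ) := by
      rw [sum_image]
      intro p _ q _ h
      exact Subtype.ext h
    have e2 : ∑ q ∈ P.image (fun p : Nat.Primes => (p : ℕ)), (1 : ℝ) / (q : ℝ) ≤
        ∑ p ∈ F, (1 : ℝ) / (p : ℝ) + 1 / 2 := by
      by_cases h2 : 2 ∈ P.image (fun p : Nat.Primes => (p : ℕ))
      · rw [hF, ← sum_erase_add _ _ h2]
        norm_num
      · rw [hF, erase_eq_of_notMem h2]
        linarith
    linarith
  have hH : max C 4 < H n := by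
    unfold H
    rw [hpf]
    calc max C 4 < ∑ p ∈ F, (1 : ℝ) / (p : ℝ) := hsum
      _ ≤ 1 + ∑ p ∈ F, (1 : ℝ) / (p : ℝ) := by linarith
      _ ≤ ∏ p ∈ F, (1 + 1 / (p : ℝ)) := one_add_sum_le F _ (fun p _ => by positivity)
      _ ≤ ∏ p ∈ F, (p : ℝ) / ((p : ℝ) - 1) := by
          apply prod_le_prod
          · intro p _; positivity
          · intro p hp
            have hp2 : (2 : ℝ) ≤ p := by exact_mod_cast (hFp p hp).two_le
            rw [le_div_iff₀ (by linarith)]
            have : (0 : ℝ) < p := by linarith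
            field_simp
            nlinarith
  refine ⟨n, nonDef_of_h ho ?_, lt_of_le_of_lt (le_max_left _ _) hH⟩
  have h1 := h_ge n ho.pos
  have h2 : (4 : ℝ) < H n := lt_of_le_of_lt (le_max_right _ _) hH
  linarith

/-- record setters with large `H` -/
theorem exists_large_B (C : ℝ) : ∃ n ∈ B, C < H n := by
  classical
  obtain ⟨n, hn, hC⟩ := exists_large (max C 2)
  set T : Finset ℕ := (range (n + 1)).filter (fun k => OddNonDeficient k) with hT
  have hTn : n ∈ T := by rw [hT, mem_filter]; exact ⟨by simp, hn⟩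
  obtain ⟨m, hm, hmax⟩ := T.exists_max_image g ⟨n, hTn⟩
  -- the least maximiser
  have hex : ∃ k, k ∈ T ∧ g k = g m := ⟨m, hm, rfl⟩
  set c := Nat.find hex with hc
  obtain ⟨hcT, hcg⟩ := Nat.find_spec hex
  rw [← hc] at hcT hcg
  have hcT' := hcT
  rw [hT, mem_filter, mem_range] at hcT'
  have hcB : c ∈ B := by
    refine ⟨hcT'.2, fun k hk hkd => ?_⟩
    have hkT : k ∈ T := by
      rw [hT, mem_filter, mem_range]; exact ⟨by omega, hkd⟩
    rw [hcg]
    refine lt_of_le_of_ne (hmax k hkT) (fun heq => ?_)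
    exact Nat.find_min hex hk ⟨hkT, heq⟩
  refine ⟨c, hcB, ?_⟩
  have h1 : g n ≤ g c := by rw [hcg]; exact hmax n hTn
  have hcn : (c : ℝ) ≤ n := by exact_mod_cast (by omega : c ≤ n)
  have hc0 : (0 : ℝ) < c := by exact_mod_cast hcT'.2.1.pos
  have h2 : Real.sqrt c ≤ Real.sqrt n := Real.sqrt_le_sqrt hcn
  have h3 : 0 < Real.sqrt c := Real.sqrt_pos.2 hc0
  have h4 : 2 < H n := lt_of_le_of_lt (le_max_right _ _) hC
  have h5 : C < H n := lt_of_le_of_lt (le_max_left _ _) hC
  unfold g S at h1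
  by_contra hcon
  push Not at hcon
  have h6 : (H n - 2) * Real.sqrt c ≤ (H n - 2) * Real.sqrt n :=
    mul_le_mul_of_nonneg_left h2 (by linarith)
  have h7 : (H c - 2) * Real.sqrt c < (H n - 2) * Real.sqrt c :=
    mul_lt_mul_of_pos_right (by linarith) h3
  linarith

theorem B_infinite : B.Infinite := by
  intro hfin
  obtain ⟨M, hM⟩ := (hfin.image H).bddAbove
  obtain ⟨n, hn, hlt⟩ := exists_large_B M
  have := hM (Set.mem_image_of_mem H hn)
  linarith

/-- There are infinitely many indices `j ≥ 1` with `h (b_{1,j}) < h (b_{1,j+1})`. -/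
theorem result : B.Infinite ∧ {j : ℕ | 1 ≤ j ∧ h (b j) < h (b (j + 1))}.Infinite := by
  refine ⟨B_infinite, ?_⟩
  intro hfin
  obtain ⟨j0, hj0⟩ := hfin.bddAbove
  have hmono : ∀ j, j0 + 1 ≤ j → h (b (j + 1)) ≤ h (b j) := by
    intro j hj
    by_contra hcon
    push Not at hcon
    have := hj0 (show j ∈ {j : ℕ | 1 ≤ j ∧ h (b j) < h (b (j + 1))} from ⟨by omega, hcon⟩)
    omega
  have hbound : ∀ j, j0 + 1 ≤ j → h (b j) ≤ h (b (j0 + 1)) := by
    intro j hj
    induction j, hj using Nat.le_induction with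
    | base => exact le_rfl
    | succ j hj ih => exact (hmono j hj).trans ih
  obtain ⟨M, hM⟩ := ((range (j0 + 1)).image (fun i => h (b (i + 1)))).bddAbove
  have hall : ∀ i : ℕ, h (Nat.nth (fun n => n ∈ B) i) ≤ max M (h (b (j0 + 1))) := by
    intro i
    have e : Nat.nth (fun n => n ∈ B) i = b (i + 1) := by unfold b; rw [Nat.add_sub_cancel]
    rw [e]
    rcases Nat.lt_or_ge i (j0 + 1) with h1 | h1
    · refine le_max_of_le_left (hM ?_)
      rw [mem_coe, mem_image]
      exact ⟨i, mem_range.2 h1, rfl⟩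
    · exact le_max_of_le_right (hbound (i + 1) (by omega))
  obtain ⟨n, hn, hlt⟩ := exists_large_B (2 * max M (h (b (j0 + 1))))
  obtain ⟨i, hi⟩ : ∃ i, Nat.nth (fun n => n ∈ B) i = n := by
    have h1 : (Set.ofPred (fun n => n ∈ B)).Infinite := B_infinite
    have h2 := Nat.range_nth_of_infinite h1
    rw [← Set.mem_range, h2]
    exact hn
  have h1 := hall i
  rw [hi] at h1
  have h2 := h_ge n hn.1.1.pos
  linarith

end Pool.Agent.Results.MP_04e67f_nt.InfinitelyManyIncreases
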